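import Mathlib

/-! Project H849-TILT, task ELIMK: the key lemma over a subfield. -/

set_option autoImplicit false

namespace Pool.Agent.H980R3.TAElimK

open MvPolynomial

attribute [local instance] MvPolynomial.weightedGradedAlgebra MvPolynomial.gradedAlgebra

theorem comp_mul {F : Type} [Field F] {m : ℕ} {c q : MvPolynomial (Fin (m + 1)) F} {b L : ℕ}
    (hq : q.IsHomogeneous b) :
    homogeneousComponent L (c * q) =
      (if b ≤ L then homogeneousComponent (L - b) c else 0) * q := by
  have h1 := DirectSum.coe_decompose_mul_of_right_mem (homogeneousSubmodule (Fin (m + 1)) F)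
    (a := c) (b := q) L (i := b) hq
  split_ifs at h1 ⊢ with h2
  · have h3 : ∀ (p : MvPolynomial (Fin (m + 1)) F) (i : ℕ),
        (DirectSum.decompose (homogeneousSubmodule (Fin (m + 1)) F) p i :
          MvPolynomial (Fin (m + 1)) F) = homogeneousComponent i p := fun p i =>
      decomposition.decompose'_apply p i
    rw [h3, h3] at h1
    exact h1
  · have h3 : ∀ (p : MvPolynomial (Fin (m + 1)) F) (i : ℕ),
        (DirectSum.decompose (homogeneousSubmodule (Fin (m + 1)) F) p i :
          MvPolynomial (Fin (m + 1)) F) = homogeneousComponent i p := fun p i =>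
      decomposition.decompose'_apply p i
    rw [h3] at h1
    rw [h1, zero_mul]

/-- an additive projection of `F` to the subfield generated by the image of `ev` -/
theorem exists_proj {A F : Type} [CommRing A] [Field F] (ev : A →+* F) :
    ∃ π : F →+ F, π 1 = 1 ∧ (∀ x a, π (x * ev a) = π x * ev a) ∧
      ∀ x, ∃ a b : A, ev a / ev b = π x := by
  let K0 : Subfield F := Subfield.closure (Set.range ev)
  obtain ⟨π, hπ⟩ := LinearMap.exists_leftInverse_of_injective (Algebra.linearMap K0 F)
    (LinearMap.ker_eq_bot.2 (algebraMap K0 F).injective)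
  refine ⟨AddMonoidHom.mk' (fun x => (π x : F)) (fun x y => by simp), ?_, ?_, ?_⟩
  · have h := LinearMap.congr_fun hπ (1 : K0)
    have h' : π 1 = 1 := by simpa using h
    show ((π 1 : K0) : F) = 1
    rw [h']
    rfl
  · intro x a
    show ((π (x * ev a) : K0) : F) = (π x : F) * ev a
    have ha : ev a ∈ K0 := Subfield.subset_closure ⟨a, rfl⟩
    have h1 : x * ev a = (⟨ev a, ha⟩ : K0) • x := by
      rw [mul_comm]
      rfl
    rw [h1, map_smul, mul_comm]
    rfl
  · intro x
    have h := (π x).2
    rw [Subfield.mem_closure_iff] at h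
    have hcl : Subring.closure (Set.range ev) = ev.range := by
      rw [← RingHom.coe_range]
      exact Subring.closure_eq _
    rw [hcl] at h
    obtain ⟨_, ⟨a, rfl⟩, _, ⟨b, rfl⟩, hab⟩ := h
    exact ⟨a, b, hab⟩

/-- common denominators -/
theorem exists_denom {A F : Type} [CommRing A] [Field F] (ev : A →+* F) (T : Finset F)
    (hT : ∀ x ∈ T, ∃ a b : A, ev a / ev b = x) :
    ∃ d : A, ev d ≠ 0 ∧ ∀ x ∈ T, ∃ a : A, ev a = ev d * x := by
  classical
  induction T using Finset.induction_on with
  | empty => exact ⟨1, by simp, by simp⟩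
  | insert x T hx ih =>
    obtain ⟨d, hd, hd'⟩ := ih fun y hy => hT y (Finset.mem_insert_of_mem hy)
    obtain ⟨a, b, hab⟩ := hT x (Finset.mem_insert_self x T)
    by_cases hb : ev b = 0
    · refine ⟨d, hd, ?_⟩
      intro y hy
      rcases Finset.mem_insert.1 hy with rfl | hy
      · refine ⟨0, ?_⟩
        rw [← hab, hb]
        simp
      · exact hd' y hy
    · refine ⟨d * b, by rw [map_mul]; exact mul_ne_zero hd hb, ?_⟩
      intro y hy
      rcases Finset.mem_insert.1 hy with rfl | hy
      · refine ⟨d * a, ?_⟩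
        rw [← hab, map_mul, map_mul]
        field_simp
      · obtain ⟨c, hc⟩ := hd' y hy
        refine ⟨c * b, ?_⟩
        rw [map_mul, map_mul, hc]
        ring

/-- the coefficientwise application of an additive map -/
noncomputable def TT {F : Type} [Field F] {m : ℕ} (π : F →+ F)
    (p : MvPolynomial (Fin (m + 1)) F) : MvPolynomial (Fin (m + 1)) F :=
  ∑ γ ∈ p.support, monomial γ (π (coeff γ p))

theorem coeff_TT {F : Type} [Field F] {m : ℕ} (π : F →+ F)
    (p : MvPolynomial (Fin (m + 1)) F) (δ : Fin (m + 1) →₀ ℕ) :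
    coeff δ (TT π p) = π (coeff δ p) := by
  classical
  unfold TT
  rw [coeff_sum]
  simp only [coeff_monomial]
  rw [Finset.sum_ite_eq' p.support δ]
  split_ifs with h
  · rfl
  · rw [notMem_support_iff.1 h, map_zero]

theorem TT_mul {A F : Type} [CommRing A] [Field F] (ev : A →+* F) {m : ℕ} (π : F →+ F)
    (hπ : ∀ x a, π (x * ev a) = π x * ev a) (p : MvPolynomial (Fin (m + 1)) F)
    (q : MvPolynomial (Fin (m + 1)) A) : TT π (p * map ev q) = TT π p * map ev q := by
  classical
  ext δ
  rw [coeff_TT, coeff_mul, coeff_mul, map_sum]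
  refine Finset.sum_congr rfl fun x _ => ?_
  rw [coeff_map, hπ, coeff_TT]

theorem TT_sum {F : Type} [Field F] {m : ℕ} (π : F →+ F) {ι : Type} (s : Finset ι)
    (p : ι → MvPolynomial (Fin (m + 1)) F) : TT π (∑ j ∈ s, p j) = ∑ j ∈ s, TT π (p j) := by
  ext δ
  rw [coeff_TT, coeff_sum, coeff_sum, map_sum]
  exact Finset.sum_congr rfl fun j _ => (coeff_TT π _ _).symm

theorem TT_monomial {F : Type} [Field F] {m : ℕ} (π : F →+ F) (h1 : π 1 = 1)
    (β : Fin (m + 1) →₀ ℕ) : TT π (monomial β (1 : F)) = monomial β 1 := by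
  classical
  ext δ
  rw [coeff_TT, coeff_monomial]
  split_ifs with h
  · exact h1
  · exact map_zero π

theorem nakaK {A F : Type} [CommRing A] [Field F] [IsAlgClosed F] (ev : A →+* F) {m : ℕ}
    {ι : Type} [Fintype ι] (r : ι → MvPolynomial (Fin (m + 1)) A) (b : ι → ℕ)
    (hr : ∀ j, (r j).IsHomogeneous (b j))
    (h0 : ∀ y : Fin (m + 1) → F, (∀ j, eval y (map ev (r j)) = 0) → y = 0) :
    ∃ (L : ℕ) (hh : A), ev hh ≠ 0 ∧
      ∀ β : Fin (m + 1) →₀ ℕ, β.degree = L → monomial β hh ∈ Ideal.span (Set.range r) := by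
  classical
  let r0 : ι → MvPolynomial (Fin (m + 1)) F := fun j => map ev (r j)
  have hr0 : ∀ j, (r0 j).IsHomogeneous (b j) := fun j => (hr j).map _
  let J : Ideal (MvPolynomial (Fin (m + 1)) F) := Ideal.span (Set.range r0)
  have hrad : ∀ j : Fin (m + 1), ∃ n : ℕ, (X j : MvPolynomial (Fin (m + 1)) F) ^ n ∈ J := by
    intro j
    have h1 : (X j : MvPolynomial (Fin (m + 1)) F) ∈ J.radical := by
      rw [← vanishingIdeal_zeroLocus_eq_radical (K := F) J]
      intro y hy
      have h2 : y = 0 := by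
        apply h0
        intro i
        have h3 := hy (r0 i) (Ideal.subset_span ⟨i, rfl⟩)
        rwa [aeval_eq_eval] at h3
      rw [h2, aeval_X]
      rfl
    exact h1
  choose n hn using hrad
  obtain ⟨L, hL⟩ : ∃ L : ℕ, L = ∑ j, n j := ⟨_, rfl⟩
  have hmon : ∀ β : Fin (m + 1) →₀ ℕ, β.degree = L →
      (monomial β (1 : F) : MvPolynomial (Fin (m + 1)) F) ∈ J := by
    intro β hβ
    obtain ⟨j, hj⟩ : ∃ j, n j ≤ β j := by
      by_contra hc
      push Not at hc
      have h1 : ∑ j, β j < ∑ j, n j :=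
        Finset.sum_lt_sum_of_nonempty Finset.univ_nonempty fun j _ => hc j
      rw [Finsupp.degree_eq_sum] at hβ
      omega
    have h2 : (monomial β (1 : F) : MvPolynomial (Fin (m + 1)) F) =
        monomial (β - Finsupp.single j (n j)) 1 * X j ^ n j := by
      rw [X_pow_eq_monomial, monomial_mul, one_mul]
      congr 1
      rw [tsub_add_cancel_of_le]
      rw [Finsupp.single_le_iff]
      exact hj
    rw [h2]
    exact J.mul_mem_left _ (hn j)
  obtain ⟨π, hπ1, hπ2, hπ3⟩ := exists_proj ev
  -- the relations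
  have hrel : ∀ β : Fin (m + 1) →₀ ℕ, β.degree = L →
      ∃ (d : A) (D : MvPolynomial (Fin (m + 1)) A), ev d ≠ 0 ∧ D.IsHomogeneous L ∧
        map ev D = 0 ∧ monomial β d - D ∈ Ideal.span (Set.range r) := by
    intro β hβ
    obtain ⟨c, hc⟩ := (Ideal.mem_span_range_iff_exists_fun).1 (hmon β hβ)
    let c' : ι → MvPolynomial (Fin (m + 1)) F := fun j =>
      if b j ≤ L then homogeneousComponent (L - b j) (c j) else 0
    have hc' : ∑ j, c' j * r0 j = monomial β 1 := by
      have h1 := congrArg (homogeneousComponent L) hc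
      rw [map_sum] at h1
      have h2 : homogeneousComponent L (monomial β (1 : F)) = monomial β 1 := by
        rw [homogeneousComponent_of_mem (isHomogeneous_monomial (1 : F) hβ), if_pos rfl]
      rw [h2] at h1
      rw [← h1]
      exact Finset.sum_congr rfl fun j _ => (comp_mul (hr0 j)).symm
    have hc2 : ∑ j, TT π (c' j) * r0 j = monomial β 1 := by
      have h1 := congrArg (TT π) hc'
      rw [TT_sum, TT_monomial π hπ1] at h1
      rw [← h1]
      exact Finset.sum_congr rfl fun j _ => (TT_mul ev π hπ2 _ _).symm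
    -- denominators
    obtain ⟨d, hd, hd'⟩ := exists_denom ev
      (Finset.univ.biUnion fun j => (c' j).support.image fun γ => π (coeff γ (c' j))) (by
        intro x hx
        obtain ⟨j, -, hx⟩ := Finset.mem_biUnion.1 hx
        obtain ⟨γ, -, rfl⟩ := Finset.mem_image.1 hx
        exact hπ3 _)
    have hd2 : ∀ j γ, ∃ a : A, γ ∈ (c' j).support → ev a = ev d * π (coeff γ (c' j)) := by
      intro j γ
      by_cases hγ : γ ∈ (c' j).support
      · obtain ⟨a, ha⟩ := hd' (π (coeff γ (c' j)))
          (Finset.mem_biUnion.2 ⟨j, Finset.mem_univ j, Finset.mem_image.2 ⟨γ, hγ, rfl⟩⟩)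
        exact ⟨a, fun _ => ha⟩
      · exact ⟨0, fun h => absurd h hγ⟩
    choose num hnum using hd2
    let c2 : ι → MvPolynomial (Fin (m + 1)) A := fun j =>
      ∑ γ ∈ (c' j).support, monomial γ (num j γ)
    have hc2map : ∀ j, map ev (c2 j) = C (ev d) * TT π (c' j) := by
      intro j
      unfold TT
      rw [map_sum, Finset.mul_sum]
      refine Finset.sum_congr rfl fun γ hγ => ?_
      rw [map_monomial, hnum j γ hγ, C_mul_monomial]
    refine ⟨d, monomial β d - ∑ j, c2 j * r j, hd, ?_, ?_, ?_⟩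
    · refine IsHomogeneous.sub (isHomogeneous_monomial _ hβ) ?_
      refine IsHomogeneous.sum _ _ _ fun j _ => ?_
      by_cases hb : b j ≤ L
      · have h3 : c' j = homogeneousComponent (L - b j) (c j) := if_pos hb
        rw [show L = (L - b j) + b j by omega]
        refine IsHomogeneous.mul ?_ (hr j)
        refine IsHomogeneous.sum _ _ _ fun γ hγ => ?_
        refine isHomogeneous_monomial _ ?_
        have h4 := homogeneousComponent_isHomogeneous (L - b j) (c j)
        rw [← h3] at h4
        have h5 := h4 (mem_support_iff.1 hγ)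
        rw [← h5, Finsupp.degree_eq_weight_one]
        rfl
      · have h3 : c' j = 0 := if_neg hb
        have h4 : c2 j = 0 := by
          show ∑ γ ∈ (c' j).support, monomial γ (num j γ) = 0
          rw [h3, support_zero, Finset.sum_empty]
        rw [h4, zero_mul]
        exact isHomogeneous_zero _ _ _
    · rw [map_sub, map_sum, map_monomial, sub_eq_zero]
      have h6 : (monomial β (ev d) : MvPolynomial (Fin (m + 1)) F) = C (ev d) * monomial β 1 := by
        rw [C_mul_monomial, mul_one]
      rw [h6, ← hc2, Finset.mul_sum]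
      refine Finset.sum_congr rfl fun j _ => ?_
      rw [map_mul, hc2map, mul_assoc]
    · rw [sub_sub_cancel]
      exact Ideal.sum_mem _ fun j _ => Ideal.mul_mem_left _ _ (Ideal.subset_span ⟨j, rfl⟩)
  -- Cayley-Hamilton
  let I := Ideal.span (Set.range r)
  let 𝔪 : Ideal A := RingHom.ker ev
  let g : (Fin (m + 1) →₀ ℕ) → (MvPolynomial (Fin (m + 1)) A ⧸ I) := fun β =>
    Ideal.Quotient.mk I (monomial β 1)
  let N : Submodule A (MvPolynomial (Fin (m + 1)) A ⧸ I) :=
    Submodule.span _ (g '' {β | β.degree = L})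
  have hfin : {β : Fin (m + 1) →₀ ℕ | β.degree = L}.Finite :=
    (Finsupp.finite_of_degree_le L).subset fun β hβ => le_of_eq hβ
  have hFG : N.FG := Submodule.fg_span (hfin.image g)
  have hsm : ∀ (a : A) (β : Fin (m + 1) →₀ ℕ),
      a • g β = Ideal.Quotient.mk I (monomial β a) := by
    intro a β
    have h1 : a • g β = Ideal.Quotient.mk I (a • monomial β (1 : A)) := rfl
    rw [h1, smul_monomial, smul_eq_mul, mul_one]
  have hrel2 : ∀ β : Fin (m + 1) →₀ ℕ, ∃ d : A, ev d ≠ 0 ∧ (β.degree = L → d • g β ∈ 𝔪 • N) := by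
    intro β
    by_cases hβ : β.degree = L
    swap
    · exact ⟨1, by simp, fun h => absurd h hβ⟩
    obtain ⟨d, D, hd, hD1, hD2, hD3⟩ := hrel β hβ
    refine ⟨d, hd, fun _ => ?_⟩
    have h1 : d • g β = Ideal.Quotient.mk I D := by
      rw [hsm, Ideal.Quotient.eq]
      exact hD3
    have h2 : d • g β = ∑ γ ∈ D.support, coeff γ D • g γ := by
      rw [h1]
      conv_lhs => rw [D.as_sum]
      rw [map_sum]
      exact Finset.sum_congr rfl fun γ _ => (hsm _ _).symm
    rw [h2]
    refine Submodule.sum_mem _ fun γ hγ => ?_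
    refine Submodule.smul_mem_smul ?_ (Submodule.subset_span ⟨γ, ?_, rfl⟩)
    · rw [RingHom.mem_ker]
      have h3 := congrArg (coeff γ) hD2
      rwa [coeff_map, coeff_zero] at h3
    · have h4 := hD1 (mem_support_iff.1 hγ)
      rw [Set.mem_ofPred_eq, ← h4]
      rw [Finsupp.degree_eq_weight_one]
      rfl
  choose dd hdd hdd' using hrel2
  let Dt : A := ∏ β ∈ hfin.toFinset, dd β
  have hDt : ev Dt ≠ 0 := by
    show ev (∏ β ∈ hfin.toFinset, dd β) ≠ 0
    rw [map_prod]
    exact Finset.prod_ne_zero_iff.2 fun β _ => hdd β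
  have hDN : ∀ x ∈ N, Dt • x ∈ 𝔪 • N := by
    intro x hx
    induction hx using Submodule.span_induction with
    | mem x hx =>
      obtain ⟨β, hβ, rfl⟩ := hx
      have h1 : Dt = (∏ γ ∈ hfin.toFinset.erase β, dd γ) * dd β :=
        (Finset.prod_erase_mul _ _ (hfin.mem_toFinset.2 hβ)).symm
      rw [h1, mul_smul]
      exact Submodule.smul_mem _ _ (hdd' β hβ)
    | zero => rw [smul_zero]; exact Submodule.zero_mem _
    | add x y _ _ hx hy => rw [smul_add]; exact Submodule.add_mem _ hx hy
    | smul a x _ hx => rw [smul_comm]; exact Submodule.smul_mem _ _ hx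
  have hNfin : Module.Finite A N := Module.Finite.iff_fg.2 hFG
  have hrange : LinearMap.range (algebraMap A (Module.End A N) Dt) ≤ 𝔪 • ⊤ := by
    rintro _ ⟨x, rfl⟩
    have h1 : N.subtype (Dt • x) ∈ (𝔪 • (⊤ : Submodule A N)).map N.subtype := by
      rw [Submodule.map_smul'', Submodule.map_subtype_top]
      exact hDN x x.2
    obtain ⟨y, hy, hyx⟩ := h1
    have h2 : y = Dt • x := Subtype.ext hyx
    rw [h2] at hy
    exact hy
  obtain ⟨p, hp1, -, hp2, hp3⟩ :=
    LinearMap.exists_monic_and_natDegree_eq_and_coeff_mem_pow_and_aeval_eq_zero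
      A (algebraMap A (Module.End A N) Dt) 𝔪 hrange
  refine ⟨L, p.eval Dt, ?_, fun β hβ => ?_⟩
  · rw [Polynomial.eval_eq_sum_range, map_sum, Finset.sum_range_succ, Finset.sum_eq_zero, zero_add,
      map_mul, hp1.coeff_natDegree, map_one, one_mul, map_pow]
    · exact pow_ne_zero _ hDt
    · intro i hi
      have h1 : p.coeff i ∈ 𝔪 := by
        have h2 := hp2 i
        exact Ideal.pow_le_self (by have := Finset.mem_range.1 hi; omega) h2
      rw [map_mul, (RingHom.mem_ker).1 h1, zero_mul]
  · rw [Polynomial.aeval_algebraMap_apply] at hp3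
    have h1 := LinearMap.congr_fun hp3 (⟨g β, Submodule.subset_span ⟨β, hβ, rfl⟩⟩ : N)
    have h2 : (p.eval Dt) • g β = 0 := by
      have h3 := congrArg Subtype.val h1
      rw [← Polynomial.coe_aeval_eq_eval]
      exact h3
    rw [hsm] at h2
    exact Ideal.Quotient.eq_zero_iff_mem.1 h2

end Pool.Agent.H980R3.TAElimK
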