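import Mathlib
import Pool.Agent.Helper849.TA.Stmts3
import Pool.Agent.H996R3.TA.Elim
import Pool.Agent.H980R3.TA.NakaK

/-! Project H849-TILT, task ELIMK: main theorem of elimination theory with coefficients in a
subfield.  (Follows `Pool.Agent.H996R3.TA.Elim` with the key lemma replaced by `nakaK`.) -/

set_option autoImplicit false

namespace Pool.Agent.H980R3.TAElimK

open MvPolynomial Pool.Agent.Helper849.TA Pool.Agent.H996R3.TAElim

attribute [local instance] MvPolynomial.weightedGradedAlgebra MvPolynomial.gradedAlgebra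

theorem aeval_psi {k F : Type} [Field k] [Field F] [Algebra k F] {σ : Type} {m : ℕ}
    (z : σ → F) (y : Fin (m + 1) → F) (p : MvPolynomial (σ ⊕ Fin (m + 1)) k) :
    eval y (map ((aeval z : MvPolynomial σ k →ₐ[k] F) : MvPolynomial σ k →+* F) (psi p)) =
      aeval (Sum.elim z y) p := by
  induction p using MvPolynomial.induction_on with
  | C a =>
    unfold psi
    rw [aeval_C]
    change eval y (map ((aeval z : MvPolynomial σ k →ₐ[k] F) : MvPolynomial σ k →+* F)
      (C (C a))) = _
    rw [map_C, eval_C, aeval_C]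
    simp
  | add p q hp hq => rw [map_add, map_add, map_add, map_add, hp, hq]
  | mul_X p i hp =>
    rw [map_mul, map_mul, map_mul, map_mul, hp]
    congr 1
    unfold psi
    rw [aeval_X]
    cases i with
    | inl i => simp
    | inr j => simp

theorem taskElimK : TaskElimK := by
  intro k F _ _ _ _ σ _ w m v ι _ r a b hra hrb
  let I : Ideal (MvPolynomial (σ ⊕ Fin (m + 1)) k) := Ideal.span (Set.range r)
  refine ⟨{h | (∃ l, IsWeightedHomogeneous w h l) ∧ ∃ L : ℕ, ∀ β : Fin (m + 1) →₀ ℕ,
    β.degree = L → rename Sum.inl h * rename Sum.inr (monomial β (1 : k)) ∈ I},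
    fun h hh => hh.1, fun z => ⟨?_, ?_⟩⟩
  · intro hS
    by_contra hc
    push Not at hc
    obtain ⟨L, hh, hh1, hh2⟩ := nakaK
      ((aeval z : MvPolynomial σ k →ₐ[k] F) : MvPolynomial σ k →+* F) (fun j => psi (r j)) b
      (fun j => psi_homogeneous (hrb j)) (by
      intro y hy
      by_contra hy0
      obtain ⟨j, hj⟩ := hc y hy0
      apply hj
      rw [← aeval_psi]
      exact hy j)
    have hI : ∀ β : Fin (m + 1) →₀ ℕ, β.degree = L →
        rename Sum.inl hh * rename Sum.inr (monomial β (1 : k)) ∈ I := by
      intro β hβ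
      rw [← phi_monomial]
      have h1 : Ideal.span (Set.range fun j => psi (r j)) ≤ I.comap phi := by
        refine Ideal.span_le.2 ?_
        rintro _ ⟨j, rfl⟩
        change phi (psi (r j)) ∈ I
        rw [phi_psi]
        exact Ideal.subset_span ⟨j, rfl⟩
      exact h1 (hh2 β hβ)
    have hhom : I.IsHomogeneous (weightedHomogeneousSubmodule k (Sum.elim w v)) :=
      Ideal.homogeneous_span _ _ (by
        rintro _ ⟨j, rfl⟩
        exact ⟨a j, hra j⟩)
    have hcomp : ∀ l, aeval z (weightedHomogeneousComponent w l hh) = 0 := by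
      intro l
      apply hS
      refine ⟨⟨l, weightedHomogeneousComponent_isWeightedHomogeneous _ _⟩, L, fun β hβ => ?_⟩
      rw [← comp_rename w v β l _ rfl hh]
      exact weightedHomogeneousComponent_mem_of_mem k (Sum.elim w v) hhom (hI β hβ) _
    have hsum := finsum_weightedHomogeneousComponent w hh
    have h2 : aeval z hh = 0 := by
      rw [← hsum]
      have h3 := (aeval z : MvPolynomial σ k →ₐ[k] F).toRingHom.toAddMonoidHom.map_finsum
        (f := fun l => weightedHomogeneousComponent w l hh)
        (weightedHomogeneousComponent_finsupp hh)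
      refine h3.trans ?_
      rw [finsum_eq_zero_of_forall_eq_zero]
      exact hcomp
    exact hh1 h2
  · rintro ⟨y, hy0, hy⟩ h ⟨-, L, hL⟩
    obtain ⟨j, hj⟩ := Function.ne_iff.1 hy0
    have h1 := hL (Finsupp.single j L) (by rw [Finsupp.degree_single])
    have h2 : I ≤ RingHom.ker (aeval (Sum.elim z y) :
        MvPolynomial (σ ⊕ Fin (m + 1)) k →ₐ[k] F) := by
      refine Ideal.span_le.2 ?_
      rintro _ ⟨i, rfl⟩
      exact hy i
    have h3 := h2 h1
    rw [RingHom.mem_ker, map_mul, aeval_rename, aeval_rename, Sum.elim_comp_inl,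
      Sum.elim_comp_inr, aeval_monomial] at h3
    have h4 : ((Finsupp.single j L).prod fun n e => y n ^ e) ≠ 0 := by
      rw [Finsupp.prod_single_index (h := fun n e => y n ^ e) (pow_zero _)]
      exact pow_ne_zero _ hj
    rw [map_one, one_mul] at h3
    exact (mul_eq_zero.1 h3).resolve_right h4

end Pool.Agent.H980R3.TAElimK
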